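import Mathlib
import Pool.Agent.Helper467.FP.Defs
import Pool.Agent.Helper278.TrAlg

/-!
Sequential commutation orbits: definitions and the statements of the parts (auxiliary).
-/

set_option autoImplicit false

open scoped ComplexOrder Topology
open Filter

noncomputable section

namespace Pool.Agent.H80R3.SO

open Pool.Agent.H467F

/-- `exp(2πi j / J)` -/
def rt (J j : ℕ) : ℂ := Complex.exp (((2 * Real.pi * j / J : ℝ) : ℂ) * Complex.I)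

section defs

variable {A : Type} [CStarAlgebra A]

/-- The properties of a II_1 factor that are used. -/
structure Fac (τ : A →ₗ[ℂ] ℂ) : Prop where
  tw : TW τ
  lyap : Pool.Agent.Helper278.LyapProp τ
  equ : ∀ p q : A, star p = p → p * p = p → star q = q → q * q = q → τ p = τ q →
    ∃ v : A, star v * v = p ∧ v * star v = q

/-- Haar unitary of `N`. -/
def Haar (τ : A →ₗ[ℂ] ℂ) (u : unitary A) : Prop :=
  ∀ k : ℤ, k ≠ 0 → τ ((u ^ k : unitary A) : A) = 0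

/-- The sequence `w` of unitaries of `N` represents a Haar unitary of the ultrapower `N^U`. -/
def HaarU (τ : A →ₗ[ℂ] ℂ) (U : Ultrafilter ℕ) (w : ℕ → unitary A) : Prop :=
  ∀ k : ℤ, k ≠ 0 → Tendsto (fun n => τ ((w n ^ k : unitary A) : A)) (U : Filter ℕ) (𝓝 0)

/-- The elements of `N^U` represented by the sequences `x` and `y` commute. -/
def CommU (τ : A →ₗ[ℂ] ℂ) (U : Ultrafilter ℕ) (x y : ℕ → unitary A) : Prop :=
  Tendsto (fun n => n2 τ ((x n : A) * (y n : A) - (y n : A) * (x n : A))) (U : Filter ℕ) (𝓝 0)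

/-- There are Haar unitaries `w 1, …, w n` of `N^U` with
`[u, w 1] = [w 1, w 2] = ⋯ = [w n, v] = 0`. -/
def Chain (τ : A →ₗ[ℂ] ℂ) (U : Ultrafilter ℕ) (n : ℕ) (u v : unitary A) : Prop :=
  ∃ w : ℕ → ℕ → unitary A, w 0 = (fun _ => u) ∧ w (n + 1) = (fun _ => v) ∧
    (∀ i, 1 ≤ i → i ≤ n → HaarU τ U (w i)) ∧ ∀ i, i ≤ n → CommU τ U (w i) (w (i + 1))

/-- Approximate chains in `N`. -/
def Ap (τ : A →ₗ[ℂ] ℂ) (m k : ℕ) (u v : unitary A) : Prop :=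
  ∃ w : ℕ → unitary A, w 0 = u ∧ w (m + 1) = v ∧
    (∀ i, 1 ≤ i → i ≤ m → ∀ l : ℕ, 1 ≤ l → l ≤ k →
      ‖τ ((w i ^ l : unitary A) : A)‖ ≤ 1 / ((k : ℝ) + 1)) ∧
    ∀ i, i ≤ m → n2 τ ((w i : A) * (w (i + 1) : A) - (w (i + 1) : A) * (w i : A)) ≤
      1 / ((k : ℝ) + 1)

/-- Approximate chains of all precisions. -/
def R (τ : A →ₗ[ℂ] ℂ) (m : ℕ) (u v : unitary A) : Prop := ∀ k, Ap τ m k u v

end defs

/-- CH -/
def S_CH : Prop := ∀ (A : Type) [CStarAlgebra A] (τ : A →ₗ[ℂ] ℂ), TW τ → ∀ U : Ultrafilter ℕ,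
  (∀ n, {n} ∉ U) → ∀ (m : ℕ) (u v : unitary A), Chain τ U m u v ↔ R τ m u v

/-- CL -/
def S_CL : Prop := ∀ (A : Type) [CStarAlgebra A] (τ : A →ₗ[ℂ] ℂ), TW τ →
  ∀ (m : ℕ) (u v : unitary A),
    (∀ ε : ℝ, 0 < ε → ∃ u' v' : unitary A, n2 τ ((u : A) - u') < ε ∧ n2 τ ((v : A) - v') < ε ∧
      R τ m u' v') → R τ m u v

/-- TR1: symmetry -/
def S_TR1 : Prop := ∀ (A : Type) [CStarAlgebra A] (τ : A →ₗ[ℂ] ℂ), TW τ →
  ∀ (m : ℕ) (u v : unitary A), R τ m u v → R τ m v u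

/-- TR2: transitivity -/
def S_TR2 : Prop := ∀ (A : Type) [CStarAlgebra A] (τ : A →ₗ[ℂ] ℂ), TW τ →
  ∀ (m l : ℕ) (u x v : unitary A), Haar τ x → R τ m u x → R τ l x v → R τ (m + 1 + l) u v

/-- TR3: conjugation -/
def S_TR3 : Prop := ∀ (A : Type) [CStarAlgebra A] (τ : A →ₗ[ℂ] ℂ), TW τ →
  ∀ (m : ℕ) (g u v : unitary A), R τ m u v → R τ m (g * u * star g) (g * v * star g)

/-- TR4: longer chains -/
def S_TR4 : Prop := ∀ (A : Type) [CStarAlgebra A] (τ : A →ₗ[ℂ] ℂ), TW τ →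
  ∀ (m l : ℕ) (u v : unitary A), Haar τ u → R τ m u v → m ≤ l → R τ l u v

/-- CP: completeness of the set of Haar unitaries. -/
def S_CP : Prop := ∀ (A : Type) [CStarAlgebra A] (τ : A →ₗ[ℂ] ℂ), TW τ →
  ∀ x : ℕ → unitary A, (∀ n, Haar τ (x n)) →
    (∀ n, n2 τ ((x n : A) - x (n + 1)) ≤ (1 / 2) ^ n) →
    ∃ y : unitary A, Haar τ y ∧ Tendsto (fun n => n2 τ ((x n : A) - y)) atTop (𝓝 0)

/-- FS: unitaries are approximated by unitaries with finite spectrum. -/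
def S_FS : Prop := ∀ (A : Type) [CStarAlgebra A] (τ : A →ₗ[ℂ] ℂ), Fac τ →
  ∀ (J : ℕ), 1 ≤ J → ∀ z : unitary A, ∃ e : Fin J → A, Pool.Agent.Helper278.PVM e ∧
    n2 τ ((z : A) - ∑ j : Fin J, rt J (j : ℕ) • e j) ≤ 2 / Real.sqrt J ∧
    (Haar τ z → ∀ j, τ (e j) = 1 / (J : ℂ))

/-- AC: any two Haar unitaries are approximately conjugate. -/
def S_AC : Prop := ∀ (A : Type) [CStarAlgebra A] (τ : A →ₗ[ℂ] ℂ), Fac τ →
  ∀ (u v : unitary A), Haar τ u → Haar τ v → ∀ ε : ℝ, 0 < ε →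
    ∃ g : unitary A, n2 τ (((g * u * star g : unitary A) : A) - v) < ε

/-- ST: every unitary is a product of a bounded number of unitaries near 1. -/
def S_ST : Prop := ∀ ρ : ℝ, 0 < ρ → ∃ L : ℕ, ∀ (A : Type) [CStarAlgebra A] (τ : A →ₗ[ℂ] ℂ),
  Fac τ → ∀ g : unitary A, ∃ r z : unitary A, g = r * z ^ L ∧ n2 τ ((r : A) - 1) < ρ ∧
    n2 τ ((z : A) - 1) < ρ

/-- FD: an interior point of `R m` gives finite diameter. -/
def S_FD : Prop := ∀ (A : Type) [CStarAlgebra A] (τ : A →ₗ[ℂ] ℂ), Fac τ →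
  ∀ (m : ℕ) (u₀ v₀ : unitary A) (ρ : ℝ), Haar τ u₀ → Haar τ v₀ → 0 < ρ →
    (∀ u v : unitary A, Haar τ u → Haar τ v → n2 τ ((u : A) - u₀) < ρ → n2 τ ((v : A) - v₀) < ρ →
      R τ m u v) → ∃ M : ℕ, 1 ≤ M ∧ ∀ u v : unitary A, Haar τ u → Haar τ v → R τ M u v

/-- DI: the dichotomy. -/
def S_DI : Prop := ∀ (A : Type) [CStarAlgebra A] (τ : A →ₗ[ℂ] ℂ), Fac τ →
  (∃ M : ℕ, 1 ≤ M ∧ ∀ u v : unitary A, Haar τ u → Haar τ v → R τ M u v) ∨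
    ∃ f : (ℕ → Bool) → unitary A, (∀ s, Haar τ (f s)) ∧ ∀ s t, s ≠ t → ∀ m, ¬ R τ m (f s) (f t)

end Pool.Agent.H80R3.SO
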