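import Mathlib
import Pool.Agent.H80R3.SO.Defs

/-!
Doubling of II_1 factors and sequential commutation orbits: definitions and statements.
-/

set_option autoImplicit false

open scoped ComplexOrder Topology
open Filter

noncomputable section

namespace Pool.Agent.H80R3.SO

open Pool.Agent.H467F

section defs

variable {A : Type} [CStarAlgebra A]

/-- Projections. -/
def Prj (p : A) : Prop := star p = p ∧ p * p = p

/-- Unitaries of the corner `p N p`. -/
def UC (p u : A) : Prop := p * u = u ∧ u * p = u ∧ star u * u = p ∧ u * star u = p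

/-- Haar unitaries of the corner `p N p`. -/
def HC (τ : A →ₗ[ℂ] ℂ) (p u : A) : Prop := UC p u ∧ ∀ k : ℕ, 1 ≤ k → τ (u ^ k) = 0

/-- The sequence `w` of unitaries of `p N p` represents a Haar unitary of `(p N p)^U`. -/
def HCU (τ : A →ₗ[ℂ] ℂ) (U : Ultrafilter ℕ) (p : A) (w : ℕ → A) : Prop :=
  (∀ n, UC p (w n)) ∧ ∀ k : ℕ, 1 ≤ k → Tendsto (fun n => τ (w n ^ k)) (U : Filter ℕ) (𝓝 0)

/-- The sequences `x` and `y` commute in the ultrapower. -/
def CU (τ : A →ₗ[ℂ] ℂ) (U : Ultrafilter ℕ) (x y : ℕ → A) : Prop :=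
  Tendsto (fun n => n2 τ (x n * y n - y n * x n)) (U : Filter ℕ) (𝓝 0)

/-- Chains of Haar unitaries of `(p N p)^U` of length `n` between `u` and `v`. -/
def ChC (τ : A →ₗ[ℂ] ℂ) (U : Ultrafilter ℕ) (p : A) (n : ℕ) (u v : A) : Prop :=
  ∃ w : ℕ → ℕ → A, w 0 = (fun _ => u) ∧ w (n + 1) = (fun _ => v) ∧
    (∀ i, 1 ≤ i → i ≤ n → HCU τ U p (w i)) ∧ ∀ i, i ≤ n → CU τ U (w i) (w (i + 1))

/-- The corner `p N p` has a unique sequential commutation orbit. -/
def UniC (τ : A →ₗ[ℂ] ℂ) (U : Ultrafilter ℕ) (p : A) : Prop :=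
  ∀ u v : A, HC τ p u → HC τ p v → ∃ n : ℕ, 1 ≤ n ∧ ChC τ U p n u v

/-- `a ⊕ b` for `a, b` in the corner of `p = v* v`, `1 - p = v v*`. -/
def dg (v a b : A) : A := a + v * b * star v

/-- The rotation. -/
def rot (v C S : A) : A := C - S * star v + v * S + v * C * star v

/-- Polar decomposition. -/
def Pol (A : Type) [CStarAlgebra A] : Prop := ∀ a : A, ∃ v c : A, star c = c ∧
  c * c = star a * a ∧ v * c = a ∧ Prj (star v * v) ∧ (star v * v) * c = c ∧
  (∀ y, c * y = 0 → (star v * v) * y = 0) ∧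
  ∀ y, y * (star a * a) = (star a * a) * y → y * c = c * y

end defs

/-- POLU: polar decomposition with unitaries of the corner. -/
def S_POLU : Prop := ∀ (A : Type) [CStarAlgebra A] (τ : A →ₗ[ℂ] ℂ), Fac τ → Pol A →
  ∀ p a : A, Prj p → p * a = a → a * p = a → ∃ u C : A, UC p u ∧ p * C = C ∧ C * p = C ∧
    star C = C ∧ C * C = star a * a ∧ u * C = a ∧
    ∀ y, y * (star a * a) = (star a * a) * y → y * C = C * y

/-- MX: decomposition of the unitaries of `N = M_2(p N p)`. -/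
def S_MX : Prop := ∀ (A : Type) [CStarAlgebra A] (τ : A →ₗ[ℂ] ℂ), Fac τ → Pol A →
  ∀ p v g : A, Prj p → star v * v = p → v * star v = 1 - p → star g * g = 1 → g * star g = 1 →
    ∃ u1 u2 d C S : A, UC p u1 ∧ UC p u2 ∧ UC p d ∧ p * C = C ∧ C * p = C ∧ p * S = S ∧
      S * p = S ∧ star C = C ∧ star S = S ∧ C * S = S * C ∧ C * C + S * S = p ∧
      g = dg v u1 u2 * rot v C S * dg v p d

/-- RC: `c ⊕ c` commutes with the rotation if `c` commutes with `C` and `S`; the rotation is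
unitary. -/
def S_RC : Prop := ∀ (A : Type) [CStarAlgebra A] (p v C S : A), Prj p → star v * v = p →
  v * star v = 1 - p → p * C = C → C * p = C → p * S = S → S * p = S → star C = C → star S = S →
  C * S = S * C → C * C + S * S = p →
  star (rot v C S) * rot v C S = 1 ∧ rot v C S * star (rot v C S) = 1 ∧
    ∀ c : A, UC p c → c * C = C * c → c * S = S * c → rot v C S * dg v c c = dg v c c * rot v C S

/-- HX: Haar unitaries commuting with a commuting set, independent of a projection of it. -/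
def S_HX : Prop := ∀ (A : Type) [CStarAlgebra A] (τ : A →ₗ[ℂ] ℂ), Fac τ →
  ∀ T : Set A, (∀ x ∈ T, star x ∈ T) → (∀ x ∈ T, ∀ y ∈ T, x * y = y * x) → ∀ p ∈ T, Prj p →
    ∃ x : unitary A, (∀ y ∈ T, (x : A) * y = y * x) ∧ ∀ k : ℕ, 1 ≤ k →
      τ ((x : A) ^ k) = 0 ∧ τ ((x : A) ^ k * p) = 0

/-- HQ: a projection of trace 1/2 commuting with a given unitary. -/
def S_HQ : Prop := ∀ (A : Type) [CStarAlgebra A] (τ : A →ₗ[ℂ] ℂ), Fac τ → ∀ y : unitary A,
  ∃ q : A, Prj q ∧ τ q = 1 / 2 ∧ (y : A) * q = q * y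

/-- BC: block chains. -/
def S_BC : Prop := ∀ (A : Type) [CStarAlgebra A] (τ : A →ₗ[ℂ] ℂ), TW τ → ∀ U : Ultrafilter ℕ,
  ∀ p v : A, Prj p → star v * v = p → v * star v = 1 - p → UniC τ U p →
    ∀ a b a' b' : unitary A, ∀ x y x' y' : A, HC τ p x → HC τ p y → HC τ p x' → HC τ p y' →
      (a : A) = dg v x y → (a' : A) = dg v x' y' → ∃ n : ℕ, 1 ≤ n ∧ Chain τ U n a a'

/-- DB: doubling. -/
def S_DB : Prop := ∀ (A : Type) [CStarAlgebra A] (τ : A →ₗ[ℂ] ℂ), Fac τ → Pol A →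
  ∀ U : Ultrafilter ℕ, (∀ n, {n} ∉ U) → ∀ p : A, Prj p → τ p = 1 / 2 → UniC τ U p →
    ∀ u v : unitary A, Haar τ u → Haar τ v → ∃ n : ℕ, 1 ≤ n ∧ Chain τ U n u v

end Pool.Agent.H80R3.SO
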