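import Mathlib
import Pool.Agent.H80R3.SO.DefB

/-!
# MX: decomposition of the unitaries of the doubling
-/

set_option autoImplicit false

noncomputable section

namespace Pool.Agent.H80R3.SO

section alg

variable {A : Type} [CStarAlgebra A]

theorem mx_assoc {a b c : A} (h : a * b = c) (x : A) : a * (b * x) = c * x := by
  rw [← mul_assoc, h]

theorem mx_vp {p v : A} (hp : star p = p) (hpp : p * p = p) (hv : star v * v = p) :
    v * p = v := by
  have h : star (v * p - v) * (v * p - v) = 0 := by
    have h1 : star (v * p - v) * (v * p - v) =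
        star p * (star v * v) * p - star p * (star v * v) - (star v * v) * p + star v * v := by
      rw [star_sub, star_mul]
      noncomm_ring
    rw [h1, hv, hp, hpp, hpp]
    abel
  have := CStarRing.star_mul_self_eq_zero_iff (v * p - v) |>.1 h
  exact sub_eq_zero.1 this

theorem mx_pv {p v : A} (hp : star p = p) (hpp : p * p = p) (hv : v * star v = 1 - p) :
    p * v = 0 := by
  have h : (p * v) * star (p * v) = 0 := by
    rw [star_mul, hp]
    have h1 : p * v * (star v * p) = p * (v * star v) * p := by noncomm_ring
    rw [h1, hv, mul_sub, mul_one, hpp, sub_self, zero_mul]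
  exact (CStarRing.mul_star_self_eq_zero_iff (p * v)).1 h

/-- algebra of the doubling -/
theorem mx_alg (p v g u1 u2 C S : A) (hp : star p = p) (hpp : p * p = p)
    (hv : star v * v = p) (hv' : v * star v = 1 - p) (hg : star g * g = 1) (hg' : g * star g = 1)
    (hu1 : p * u1 = u1 ∧ u1 * p = u1 ∧ star u1 * u1 = p ∧ u1 * star u1 = p)
    (hu2 : p * u2 = u2 ∧ u2 * p = u2 ∧ star u2 * u2 = p ∧ u2 * star u2 = p)
    (pC : p * C = C) (Cp : C * p = C) (pS : p * S = S) (Sp : S * p = S) (sC : star C = C)
    (sS : star S = S) (hCS : C * S = S * C) (h1 : C * C + S * S = p) (ha : u1 * C = p * g * p)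
    (hb : u2 * S = star v * g * p) :
    ∃ d : A, (p * d = d ∧ d * p = d ∧ star d * d = p ∧ d * star d = p) ∧
      g = dg v u1 u2 * rot v C S * dg v p d := by
  have vp : v * p = v := mx_vp hp hpp hv
  have pv : p * v = 0 := mx_pv hp hpp hv'
  have psv : p * star v = star v := by
    have := congrArg star vp
    rwa [star_mul, hp] at this
  have svp : star v * p = 0 := by
    have := congrArg star pv
    rwa [star_mul, hp, star_zero] at this
  have Cv : C * v = 0 := by rw [← Cp, mul_assoc, pv, mul_zero]
  have Sv : S * v = 0 := by rw [← Sp, mul_assoc, pv, mul_zero]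
  have svC : star v * C = 0 := by rw [← pC, ← mul_assoc, svp, zero_mul]
  have svS : star v * S = 0 := by rw [← pS, ← mul_assoc, svp, zero_mul]
  obtain ⟨pu1, u1p, su1, u1s⟩ := hu1
  obtain ⟨pu2, u2p, su2, u2s⟩ := hu2
  have psu1 : p * star u1 = star u1 := by
    have := congrArg star u1p
    rwa [star_mul, hp] at this
  have su1p : star u1 * p = star u1 := by
    have := congrArg star pu1
    rwa [star_mul, hp] at this
  have psu2 : p * star u2 = star u2 := by
    have := congrArg star u2p
    rwa [star_mul, hp] at this
  have su2p : star u2 * p = star u2 := by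
    have := congrArg star pu2
    rwa [star_mul, hp] at this
  have u1v : u1 * v = 0 := by rw [← u1p, mul_assoc, pv, mul_zero]
  have u2v : u2 * v = 0 := by rw [← u2p, mul_assoc, pv, mul_zero]
  have su1v : star u1 * v = 0 := by rw [← su1p, mul_assoc, pv, mul_zero]
  have su2v : star u2 * v = 0 := by rw [← su2p, mul_assoc, pv, mul_zero]
  have svu1 : star v * u1 = 0 := by rw [← pu1, ← mul_assoc, svp, zero_mul]
  have svu2 : star v * u2 = 0 := by rw [← pu2, ← mul_assoc, svp, zero_mul]
  have svsu1 : star v * star u1 = 0 := by rw [← psu1, ← mul_assoc, svp, zero_mul]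
  have svsu2 : star v * star u2 = 0 := by rw [← psu2, ← mul_assoc, svp, zero_mul]
  set W := dg v u1 u2 with hW
  set R := rot v C S with hR
  have sW : star W = star u1 + v * (star u2 * star v) := by
    rw [hW, dg]
    simp only [star_add, star_mul, star_star]
  have sR : star R = C - v * S + S * star v + v * (C * star v) := by
    rw [hR, rot]
    simp only [star_add, star_sub, star_mul, star_star, sC, sS]
  have WW : star W * W = 1 := by
    rw [sW, hW, dg]
    simp only [mul_add, add_mul, mul_assoc, su1, su2, su1v, svu1, mx_assoc su1v, mx_assoc hv,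
      mx_assoc su2p, mx_assoc su2, mx_assoc pu2, psv, hv', mul_zero, zero_mul, add_zero, zero_add]
    abel
  have WW' : W * star W = 1 := by
    rw [sW, hW, dg]
    simp only [mul_add, add_mul, mul_assoc, u1s, u2s, mx_assoc u1v, svsu1, mx_assoc hv,
      mx_assoc u2p, mx_assoc u2s, mx_assoc psu2, psv, hv', mul_zero, zero_mul, add_zero, zero_add]
    abel
  have hCC : C * C = p - S * S := eq_sub_of_add_eq h1
  have RR : star R * R = 1 := by
    have e : star R * R = (C * C + S * S) + (S * C - C * S) * star v + v * (C * S - S * C) +
        v * ((S * S + C * C) * star v) := by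
      rw [sR, hR, rot]
      simp only [mul_add, add_mul, mul_sub, sub_mul, mul_assoc, Cv, Sv, svC, svS, mx_assoc Cv,
        mx_assoc Sv, mx_assoc svC, mx_assoc svS, mx_assoc hv, pC, pS, mx_assoc pC, mx_assoc pS,
        mul_zero, zero_mul, add_zero, zero_add, sub_zero, zero_sub, neg_zero, mul_neg, neg_mul]
      abel
    rw [e, hCS, sub_self, zero_mul, mul_zero, add_zero, add_zero, h1, add_comm (S * S), h1, psv,
      hv']
    abel
  have RR' : R * star R = 1 := by
    have e : R * star R = (C * C + S * S) + (C * S - S * C) * star v + v * (S * C - C * S) +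
        v * ((S * S + C * C) * star v) := by
      rw [sR, hR, rot]
      simp only [mul_add, add_mul, mul_sub, sub_mul, mul_assoc, Cv, Sv, svC, svS, mx_assoc Cv,
        mx_assoc Sv, mx_assoc svC, mx_assoc svS, mx_assoc hv, pC, pS, mx_assoc pC, mx_assoc pS,
        mul_zero, zero_mul, add_zero, zero_add, sub_zero, zero_sub, neg_zero, mul_neg, neg_mul]
      abel
    rw [e, hCS, sub_self, zero_mul, mul_zero, add_zero, add_zero, h1, add_comm (S * S), h1, psv,
      hv']
    abel
  have WRp : W * (R * p) = g * p := by
    have e1 : R * p = C + v * S := by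
      rw [hR, rot]
      simp only [add_mul, sub_mul, mul_assoc, Cp, Sp, svp, mul_zero, sub_zero, add_zero]
    have e2 : W * (C + v * S) = u1 * C + v * (u2 * S) := by
      rw [hW, dg]
      simp only [mul_add, add_mul, mul_assoc, mx_assoc u1v, svC, mx_assoc hv, pS, mul_zero,
        zero_mul, add_zero, zero_add]
    rw [e1, e2, ha, hb]
    have e3 : v * (star v * g * p) = (v * star v) * g * p := by noncomm_ring
    rw [e3, hv']
    noncomm_ring
  set k := star R * (star W * g) with hk
  have kp : k * p = p := by
    have e : k * p = star R * (star W * (g * p)) := by rw [hk]; noncomm_ring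
    rw [e, ← WRp, mx_assoc WW, one_mul, mx_assoc RR, one_mul]
  have kk : star k * k = 1 := by
    have e : star k * k = star g * (W * (R * (star R * (star W * g)))) := by
      rw [hk]
      simp only [star_mul, star_star, mul_assoc]
    rw [e, mx_assoc RR', one_mul, mx_assoc WW', one_mul, hg]
  have kk' : k * star k = 1 := by
    have e : k * star k = star R * (star W * (g * (star g * (W * R)))) := by
      rw [hk]
      simp only [star_mul, star_star, mul_assoc]
    rw [e, mx_assoc hg', one_mul, mx_assoc WW, one_mul, RR]
  have skp : star k * p = p := by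
    calc star k * p = star k * (k * p) := by rw [kp]
      _ = p := by rw [mx_assoc kk, one_mul]
  have pk : p * k = p := by
    have := congrArg star skp
    rwa [star_mul, star_star, hp] at this
  have psk : p * star k = p := by
    have := congrArg star kp
    rwa [star_mul, hp] at this
  refine ⟨star v * (k * v), ⟨?_, ?_, ?_, ?_⟩, ?_⟩
  · rw [mx_assoc psv]
  · simp only [mul_assoc, vp]
  · have e : star (star v * (k * v)) * (star v * (k * v)) =
        star v * (star k * ((v * star v) * (k * v))) := by
      simp only [star_mul, star_star, mul_assoc]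
    rw [e, hv', sub_mul, one_mul, mx_assoc pk, pv, sub_zero, mx_assoc kk, one_mul, hv]
  · have e : (star v * (k * v)) * star (star v * (k * v)) =
        star v * (k * ((v * star v) * (star k * v))) := by
      simp only [star_mul, star_star, mul_assoc]
    rw [e, hv', sub_mul, one_mul, mx_assoc psk, pv, sub_zero, mx_assoc kk', one_mul, hv]
  · have e : dg v p (star v * (k * v)) = k := by
      have e1 : dg v p (star v * (k * v)) = p + (v * star v) * k * (v * star v) := by
        rw [dg]
        simp only [mul_assoc]
      rw [e1, hv']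
      have e2 : p + (1 - p) * k * (1 - p) = p + k - p * k - k * p + (p * k) * p := by
        noncomm_ring
      rw [e2, pk, kp, hpp]
      abel
    rw [e, hk, mul_assoc, mx_assoc RR', one_mul, mx_assoc WW', one_mul]

end alg

theorem p_MX (hP : S_POLU) : S_MX := by
  intro A _ τ hF hPol p v g hp hv hv' hg hg'
  obtain ⟨hps, hpp⟩ := hp
  have vp : v * p = v := mx_vp hps hpp hv
  have psv : p * star v = star v := by
    have := congrArg star vp
    rwa [star_mul, hps] at this
  have pa : p * (p * g * p) = p * g * p := by simp only [mul_assoc, mx_assoc hpp]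
  have ap : (p * g * p) * p = p * g * p := by simp only [mul_assoc, hpp]
  have pb : p * (star v * g * p) = star v * g * p := by simp only [mul_assoc, mx_assoc psv]
  have bp : (star v * g * p) * p = star v * g * p := by simp only [mul_assoc, hpp]
  obtain ⟨u1, C, hu1, pC, Cp, sC, CC, ha, comC⟩ :=
    hP A τ hF hPol p (p * g * p) ⟨hps, hpp⟩ pa ap
  obtain ⟨u2, S, hu2, pS, Sp, sS, SS, hb, comS⟩ :=
    hP A τ hF hPol p (star v * g * p) ⟨hps, hpp⟩ pb bp
  have h1 : C * C + S * S = p := by
    rw [CC, SS]
    have e : star (p * g * p) * (p * g * p) + star (star v * g * p) * (star v * g * p) =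
        p * (star g * ((p + v * star v) * (g * p))) := by
      simp only [star_mul, star_star, hps, mul_assoc, mx_assoc hpp, add_mul, mul_add]
    rw [e, hv', add_sub_cancel, one_mul, mx_assoc hg, one_mul, hpp]
  have hCS : C * S = S * C := by
    apply comS
    rw [← SS, eq_sub_of_add_eq' h1, mul_sub, sub_mul, pC, Cp, mul_assoc]
  obtain ⟨d, hd, hgd⟩ := mx_alg p v g u1 u2 C S hps hpp hv hv' hg hg' hu1 hu2 pC Cp pS Sp sC sS
    hCS h1 ha hb
  exact ⟨u1, u2, d, C, S, hu1, hu2, hd, pC, Cp, pS, Sp, sC, sS, hCS, h1, hgd⟩

end Pool.Agent.H80R3.SO
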