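import Mathlib
import Pool.Agent.H80R3.SO.Defs

set_option autoImplicit false

open scoped ComplexOrder Topology
open Filter

namespace Pool.Agent.H80R3.SO

open Pool.Agent.H467F

lemma CH_norm {A : Type} [CStarAlgebra A] (τ : A →ₗ[ℂ] ℂ) (h : TW τ) (w : unitary A) (k : ℤ) :
    ‖τ ((w ^ k : unitary A) : A)‖ = ‖τ ((w ^ k.natAbs : unitary A) : A)‖ := by
  obtain ⟨l, rfl | rfl⟩ := k.eq_nat_or_neg
  · rw [zpow_natCast, Int.natAbs_natCast]
  · rw [Int.natAbs_neg, Int.natAbs_natCast, zpow_neg, zpow_natCast]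
    have e : (((w ^ l)⁻¹ : unitary A) : A) = star ((w ^ l : unitary A) : A) := rfl
    rw [e, h.conj, norm_star]

theorem p_CH : S_CH := by
  intro A _ τ hτ U hU m u v
  constructor
  · rintro ⟨w, h0, h1, hH, hC⟩ k
    have hk : (0 : ℝ) < 1 / ((k : ℝ) + 1) := by positivity
    have E1 : ∀ᶠ n in (U : Filter ℕ), ∀ i ∈ Finset.Icc 1 m, ∀ l ∈ Finset.Icc 1 k,
        ‖τ ((w i n ^ l : unitary A) : A)‖ ≤ 1 / ((k : ℝ) + 1) := by
      rw [Filter.eventually_all_finset]
      intro i hi
      rw [Filter.eventually_all_finset]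
      intro l hl
      rw [Finset.mem_Icc] at hi hl
      have h2 := hH i hi.1 hi.2 (l : ℤ) (by omega)
      simp only [zpow_natCast] at h2
      have h3 := tendsto_zero_iff_norm_tendsto_zero.1 h2
      exact h3.eventually_le_const hk
    have E2 : ∀ᶠ n in (U : Filter ℕ), ∀ i ∈ Finset.range (m + 1),
        n2 τ ((w i n : A) * (w (i + 1) n : A) - (w (i + 1) n : A) * (w i n : A)) ≤
          1 / ((k : ℝ) + 1) := by
      rw [Filter.eventually_all_finset]
      intro i hi
      rw [Finset.mem_range] at hi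
      have h2 := hC i (by omega)
      exact Filter.Tendsto.eventually_le_const hk h2
    obtain ⟨n, hn1, hn2⟩ := (E1.and E2).exists
    refine ⟨fun i => w i n, congrFun h0 n, congrFun h1 n, ?_, ?_⟩
    · intro i hi1 hi2 l hl1 hl2
      exact hn1 i (Finset.mem_Icc.2 ⟨hi1, hi2⟩) l (Finset.mem_Icc.2 ⟨hl1, hl2⟩)
    · intro i hi
      exact hn2 i (Finset.mem_range.2 (by omega))
  · intro hR
    choose W hW0 hW1 hWH hWC using hR
    have hle : (U : Filter ℕ) ≤ atTop := by
      rw [← Nat.cofinite_eq_atTop]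
      rcases Ultrafilter.le_cofinite_or_eq_pure U with h | ⟨a, ha⟩
      · exact h
      · exfalso
        apply hU a
        rw [ha]
        exact Ultrafilter.mem_pure.2 rfl
    have hz : Tendsto (fun n : ℕ => 1 / ((n : ℝ) + 1)) atTop (𝓝 0) :=
      tendsto_one_div_add_atTop_nhds_zero_nat
    refine ⟨fun i n => W n i, funext fun n => hW0 n, funext fun n => hW1 n, ?_, ?_⟩
    · intro i hi1 hi2 k hk
      refine Tendsto.mono_left ?_ hle
      refine squeeze_zero_norm' ?_ hz
      filter_upwards [eventually_ge_atTop k.natAbs] with n hn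
      rw [CH_norm τ hτ]
      exact hWH n i hi1 hi2 k.natAbs (by omega) hn
    · intro i hi
      refine Tendsto.mono_left ?_ hle
      refine squeeze_zero (fun n => n2_nonneg _ _) (fun n => hWC n i hi) hz

end Pool.Agent.H80R3.SO
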