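import Mathlib
import Pool.Agent.H80R3.SO.Defs

/-!
# `R m` is closed
-/

set_option autoImplicit false

open scoped ComplexOrder Topology
open Filter

namespace Pool.Agent.H80R3.SO

open Pool.Agent.H467F

theorem CL_left {M : Type} [CStarAlgebra M] {τ : M →ₗ[ℂ] ℂ} (u x : M)
    (hu : star u * u = 1) : n2 τ (u * x) = n2 τ x := by
  unfold n2
  rw [star_mul, mul_assoc, ← mul_assoc (star u), hu, one_mul]

theorem CL_right {M : Type} [CStarAlgebra M] {τ : M →ₗ[ℂ] ℂ} (h : TW τ) (u x : M)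
    (hu : u * star u = 1) : n2 τ (x * u) = n2 τ x := by
  unfold n2
  rw [star_mul, h.comm, ← mul_assoc, mul_assoc x, hu, mul_one, h.comm]

theorem CL_comm {M : Type} [CStarAlgebra M] {τ : M →ₗ[ℂ] ℂ} (h : TW τ) (a b a2 b2 : M)
    (ha : star a * a = 1) (ha' : a * star a = 1) (hb2 : star b2 * b2 = 1)
    (hb2' : b2 * star b2 = 1) :
    n2 τ (a2 * b2 - b2 * a2) ≤ n2 τ (a * b - b * a) + 2 * n2 τ (a2 - a) + 2 * n2 τ (b2 - b) := by
  have e : a2 * b2 - b2 * a2 = (((a2 - a) * b2 - b2 * (a2 - a)) + (a * (b2 - b) - (b2 - b) * a)) +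
      (a * b - b * a) := by noncomm_ring
  rw [e]
  have h1 := h.n2_add_le (((a2 - a) * b2 - b2 * (a2 - a)) + (a * (b2 - b) - (b2 - b) * a))
    (a * b - b * a)
  have h2 := h.n2_add_le ((a2 - a) * b2 - b2 * (a2 - a)) (a * (b2 - b) - (b2 - b) * a)
  have h3 := h.n2_sub_le ((a2 - a) * b2) (b2 * (a2 - a))
  have h4 := h.n2_sub_le (a * (b2 - b)) ((b2 - b) * a)
  rw [CL_right h _ _ hb2', CL_left _ _ hb2] at h3
  rw [CL_right h _ _ ha', CL_left _ _ ha] at h4
  linarith

theorem p_CL : S_CL := by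
  intro A _ τ h m u v H k
  have hk : (0 : ℝ) < (k : ℝ) + 1 := by positivity
  obtain ⟨u', v', hu, hv, hR⟩ := H (1 / (8 * ((k : ℝ) + 1))) (by positivity)
  obtain ⟨w, w0, w1, ht, hc⟩ := hR (2 * k + 1)
  have hb : 1 / (((2 * k + 1 : ℕ) : ℝ) + 1) = 1 / (2 * ((k : ℝ) + 1)) := by
    push_cast
    congr 1
    ring
  rw [hb] at ht hc
  have hd : ∀ j, n2 τ (((if j = 0 then u else if j = m + 1 then v else w j : unitary A) : A) -
      (w j : A)) ≤ 1 / (8 * ((k : ℝ) + 1)) := by
    intro j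
    split_ifs with h1 h2
    · rw [h1, w0]
      exact hu.le
    · rw [h2, w1]
      exact hv.le
    · rw [sub_self, n2_zero]
      positivity
  refine ⟨fun j => if j = 0 then u else if j = m + 1 then v else w j, by simp, by simp, ?_, ?_⟩
  · intro i hi1 hi2 l hl1 hl2
    have e1 : ¬ i = 0 := by omega
    have e2 : ¬ i = m + 1 := by omega
    simp only [e1, e2, if_false]
    refine (ht i hi1 hi2 l hl1 (by omega)).trans ?_
    exact one_div_le_one_div_of_le hk (by linarith)
  · intro i hi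
    have h1 := CL_comm h (w i : A) (w (i + 1) : A)
      ((if i = 0 then u else if i = m + 1 then v else w i : unitary A) : A)
      ((if i + 1 = 0 then u else if i + 1 = m + 1 then v else w (i + 1) : unitary A) : A)
      (Unitary.coe_star_mul_self _) (Unitary.coe_mul_star_self _)
      (Unitary.coe_star_mul_self _) (Unitary.coe_mul_star_self _)
    have h2 := hd i
    have h3 := hd (i + 1)
    have h4 := hc i hi
    have e : 1 / (2 * ((k : ℝ) + 1)) + 2 * (1 / (8 * ((k : ℝ) + 1))) +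
        2 * (1 / (8 * ((k : ℝ) + 1))) = 1 / ((k : ℝ) + 1) := by
      field_simp
      norm_num
    refine h1.trans ?_
    linarith

end Pool.Agent.H80R3.SO
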