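import Mathlib
import Pool.Agent.H80R3.SO.Defs

/-! FS: unitaries are approximated by unitaries with finite spectrum. -/

set_option autoImplicit false

open scoped ComplexOrder Topology InnerProductSpace
open Filter

namespace Pool.Agent.H80R3.SO

open Pool.Agent.H467F

namespace FSaux

open Pool.Agent.Helper278 (LyapProp PVM Pos pos_star_mul)

variable {A : Type} [CStarAlgebra A] {τ : A →ₗ[ℂ] ℂ}

/-- partial geometric sums -/
noncomputable def fss (J : ℕ) (c : ℂ) (z : A) : A := ∑ k ∈ Finset.range J, c ^ k • z ^ k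

theorem fs_comm {J : ℕ} {c : ℂ} {z x : A} (h : Commute x z) : Commute x (fss J c z) :=
  Commute.sum_right _ _ _ fun k _ => (h.pow_right k).smul_right _

theorem fs_mem {J : ℕ} {c : ℂ} {z : A} (D : StarSubalgebra ℂ A) (h : z ∈ D) : fss J c z ∈ D :=
  sum_mem fun k _ => D.smul_mem (pow_mem h k) _

theorem fs_star (J : ℕ) (c : ℂ) (z : A) : star (fss J c z) = fss J (star c) (star z) := by
  unfold fss
  rw [star_sum]
  refine Finset.sum_congr rfl fun k _ => ?_
  rw [star_smul, star_pow, star_pow]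

theorem fs_geom (J : ℕ) (c ζ : ℂ) (hc : ζ * c = 1) (hJ : c ^ J = 1) (z : A) :
    (z - ζ • 1) * fss J c z = ζ • (z ^ J - 1) := by
  have h1 : (c • z - 1) * ∑ k ∈ Finset.range J, (c • z) ^ k = (c • z) ^ J - 1 := mul_geom_sum _ _
  have h2 : ∑ k ∈ Finset.range J, (c • z) ^ k = fss J c z := by
    unfold fss
    refine Finset.sum_congr rfl fun k _ => ?_
    rw [smul_pow]
  have h3 : z - ζ • (1 : A) = ζ • (c • z - 1) := by
    rw [smul_sub, smul_smul, hc, one_smul]
  rw [h3, ← h2, smul_mul_assoc, h1, smul_pow, hJ, one_smul]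

/-- the product of the sums -/
theorem fs_prod (J : ℕ) (c d : ℂ) (z w : A) :
    fss J d w * fss J c z =
      ∑ k ∈ Finset.range J, ∑ l ∈ Finset.range J, (d ^ k * c ^ l) • (w ^ k * z ^ l) := by
  unfold fss
  rw [Finset.sum_mul]
  refine Finset.sum_congr rfl fun k _ => ?_
  rw [Finset.mul_sum]
  refine Finset.sum_congr rfl fun l _ => ?_
  rw [smul_mul_smul_comm]

theorem fs_pow {z : A} (h1 : star z * z = 1) (k l : ℕ) :
    star z ^ k * z ^ l = if k ≤ l then z ^ (l - k) else star z ^ (k - l) := by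
  have h0 : ∀ m : ℕ, star z ^ m * z ^ m = 1 := by
    intro m
    induction m with
    | zero => simp
    | succ m ih =>
      rw [pow_succ, pow_succ']
      calc star z ^ m * star z * (z * z ^ m) = star z ^ m * (star z * z) * z ^ m := by
            noncomm_ring
        _ = 1 := by rw [h1, mul_one, ih]
  split_ifs with h
  · obtain ⟨m, rfl⟩ := Nat.exists_eq_add_of_le h
    rw [pow_add, ← mul_assoc, h0, one_mul, Nat.add_sub_cancel_left]
  · obtain ⟨m, rfl⟩ := Nat.exists_eq_add_of_le (le_of_not_ge h)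
    rw [Nat.add_comm, pow_add, mul_assoc, h0, mul_one, Nat.add_sub_cancel]

theorem fs_tr (hτ : TW τ) {z : A} (h1 : star z * z = 1) (hz : ∀ l : ℕ, 0 < l → τ (z ^ l) = 0)
    (k l : ℕ) : τ (star z ^ k * z ^ l) = if k = l then 1 else 0 := by
  have h2 : ∀ l : ℕ, 0 < l → τ (star z ^ l) = 0 := by
    intro l hl
    rw [← star_pow, hτ.conj, hz l hl, star_zero]
  rw [fs_pow h1]
  rcases lt_trichotomy k l with h | h | h
  · rw [if_pos h.le, if_neg h.ne]; exact hz _ (by omega)
  · subst h; simp [hτ.one]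
  · rw [if_neg (by omega), if_neg (by omega)]; exact h2 _ (by omega)

/-- orthogonality of the powers of a root of unity -/
theorem fs_orth (J : ℕ) (hJ : 0 < J) (k l : ℕ) (hk : k < J) (hl : l < J) (ζ : ℂ)
    (hζ : IsPrimitiveRoot ζ J) (hn : ζ * star ζ = 1) :
    ∑ j : Fin J, (ζ ^ (j : ℕ)) ^ k * (star (ζ ^ (j : ℕ))) ^ l = if k = l then (J : ℂ) else 0 := by
  have h0 : ∀ j : Fin J, (ζ ^ (j : ℕ)) ^ k * (star (ζ ^ (j : ℕ))) ^ l =
      (ζ ^ k * star ζ ^ l) ^ (j : ℕ) := by
    intro j
    rw [star_pow, mul_pow, ← pow_mul, ← pow_mul, ← pow_mul, ← pow_mul, mul_comm k, mul_comm l]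
  simp only [h0]
  rw [Fin.sum_univ_eq_sum_range (fun j => (ζ ^ k * star ζ ^ l) ^ j) J]
  split_ifs with h
  · subst h
    rw [← mul_pow, hn, one_pow]
    simp
  · have hr : ζ ^ k * star ζ ^ l ≠ 1 := by
      intro h1
      apply h
      apply hζ.pow_inj hk hl
      calc ζ ^ k = ζ ^ k * (ζ * star ζ) ^ l := by rw [hn, one_pow, mul_one]
        _ = (ζ ^ k * star ζ ^ l) * ζ ^ l := by rw [mul_pow]; ring
        _ = ζ ^ l := by rw [h1, one_mul]
    rw [geom_sum_eq hr]
    have h2 : (ζ ^ k * star ζ ^ l) ^ J = 1 := by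
      rw [mul_pow, ← pow_mul, ← pow_mul, mul_comm k, mul_comm l, pow_mul, pow_mul, ← star_pow,
        hζ.pow_eq_one, star_one, one_pow, one_pow, one_mul]
    rw [h2, sub_self, zero_div]

/-- the main statement -/
theorem fs_main (hτ : TW τ) (hL : LyapProp τ) (J : ℕ) (hJ : 0 < J) (ζ : ℂ)
    (hζ : IsPrimitiveRoot ζ J) (hn : ζ * star ζ = 1) {z : A} (h1 : star z * z = 1)
    (h2 : z * star z = 1) :
    ∃ p : Fin J → A, PVM p ∧ n2 τ (z - ∑ j : Fin J, ζ ^ (j : ℕ) • p j) ≤ 2 / Real.sqrt J ∧
      ((∀ l : ℕ, 0 < l → τ (z ^ l) = 0) → ∀ j, τ (p j) = 1 / J) := by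
  have hJ0 : (J : ℂ) ≠ 0 := by exact_mod_cast hJ.ne'
  have hnj : ∀ j : ℕ, ζ ^ j * star (ζ ^ j) = 1 := fun j => by
    rw [star_pow, ← mul_pow, hn, one_pow]
  have hnJ : ∀ j : ℕ, (star (ζ ^ j)) ^ J = 1 := fun j => by
    rw [← star_pow, ← pow_mul, mul_comm, pow_mul, hζ.pow_eq_one, one_pow, star_one]
  set s : Fin J → A := fun j => fss J (star (ζ ^ (j : ℕ))) z with hs
  set y : Fin J → A := fun j => z - ζ ^ (j : ℕ) • 1 with hy
  have hcz : Commute z (star z) := by
    change z * star z = star z * z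
    rw [h1, h2]
  have hstar : ∀ j, star (s j) = fss J (ζ ^ (j : ℕ)) (star z) := by
    intro j
    rw [hs]
    dsimp only
    rw [fs_star, star_star]
  have hss : ∀ j, star (s j) * s j = ∑ k ∈ Finset.range J, ∑ l ∈ Finset.range J,
      ((ζ ^ (j : ℕ)) ^ k * star (ζ ^ (j : ℕ)) ^ l) • (star z ^ k * z ^ l) := by
    intro j
    rw [hstar, hs]
    dsimp only
    rw [fs_prod]
  -- (a)
  have ha : ∑ j, star (s j) * s j = ((J : ℂ) * J) • (1 : A) := by
    simp only [hss]
    rw [Finset.sum_comm]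
    have h3 : ∀ k ∈ Finset.range J, (∑ j : Fin J, ∑ l ∈ Finset.range J,
        ((ζ ^ (j : ℕ)) ^ k * star (ζ ^ (j : ℕ)) ^ l) • (star z ^ k * z ^ l)) = (J : ℂ) • (1 : A) := by
      intro k hk
      rw [Finset.sum_comm, Finset.sum_eq_single k]
      · rw [← Finset.sum_smul, fs_orth J hJ k k (Finset.mem_range.1 hk) (Finset.mem_range.1 hk) ζ hζ hn,
          if_pos rfl, fs_pow h1, if_pos le_rfl, Nat.sub_self, pow_zero]
      · intro l hl hlk
        rw [← Finset.sum_smul, fs_orth J hJ k l (Finset.mem_range.1 hk) (Finset.mem_range.1 hl) ζ hζ hn,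
          if_neg (Ne.symm hlk), zero_smul]
      · intro h; exact absurd hk h
    rw [Finset.sum_congr rfl h3, Finset.sum_const, Finset.card_range, ← Nat.cast_smul_eq_nsmul ℂ,
      smul_smul]
  -- (b)
  have hb : (∀ l : ℕ, 0 < l → τ (z ^ l) = 0) → ∀ j, τ (star (s j) * s j) = J := by
    intro hz j
    rw [hss, map_sum]
    have h3 : ∀ k ∈ Finset.range J, τ (∑ l ∈ Finset.range J,
        ((ζ ^ (j : ℕ)) ^ k * star (ζ ^ (j : ℕ)) ^ l) • (star z ^ k * z ^ l)) = 1 := by
      intro k hk
      rw [map_sum, Finset.sum_eq_single k]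
      · rw [map_smul, fs_tr hτ h1 hz, if_pos rfl, smul_eq_mul, mul_one, ← mul_pow, hnj, one_pow]
      · intro l _ hlk
        rw [map_smul, fs_tr hτ h1 hz, if_neg (Ne.symm hlk), smul_zero]
      · intro h; exact absurd hk h
    rw [Finset.sum_congr rfl h3]
    simp
  -- (c)
  have hys : ∀ j, y j * s j = ζ ^ (j : ℕ) • (z ^ J - 1) := fun j =>
    fs_geom J _ _ (hnj j) (hnJ j) z
  have hcy : ∀ j, Commute (star (y j)) (s j) := by
    intro j
    refine fs_comm ?_
    rw [hy]
    dsimp only
    rw [star_sub, star_smul, star_one]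
    exact hcz.symm.sub_left ((Commute.one_left z).smul_left _)
  have hcy2 : ∀ j, Commute (y j) (s j) := by
    intro j
    refine fs_comm ?_
    exact (Commute.refl z).sub_left ((Commute.one_left z).smul_left _)
  have hc : ∀ j, (τ (star (s j) * s j * (star (y j) * y j))).re ≤ 4 := by
    intro j
    have e1 : star (s j) * s j * (star (y j) * y j) = star (y j * s j) * (y j * s j) := by
      calc star (s j) * s j * (star (y j) * y j) = star (s j) * (s j * star (y j)) * y j := by
            noncomm_ring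
        _ = star (s j) * (star (y j) * s j) * y j := by rw [(hcy j).eq]
        _ = star (s j) * star (y j) * (s j * y j) := by noncomm_ring
        _ = star (y j * s j) * (y j * s j) := by rw [← (hcy2 j).eq, star_mul]
    have hw : star (z ^ J) * z ^ J = 1 := by
      rw [star_pow, fs_pow h1, if_pos le_rfl, Nat.sub_self, pow_zero]
    have hwn : ‖τ (z ^ J)‖ ≤ 1 := by
      have e3 := hτ.cauchy 1 (z ^ J)
      have e4 : n2 τ (1 : A) = 1 := by
        unfold n2; rw [star_one, one_mul, hτ.one]; simp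
      have e5 : n2 τ (z ^ J) = 1 := by
        unfold n2; rw [hw, hτ.one]; simp
      rw [star_one, one_mul, e4, e5, one_mul] at e3
      exact e3
    rw [e1, hys, star_smul, smul_mul_smul_comm, mul_comm (star _), hnj, one_smul, star_sub,
      star_one]
    have e2 : (star (z ^ J) - 1) * (z ^ J - 1) = star (z ^ J) * z ^ J - star (z ^ J) - z ^ J + 1 := by
      noncomm_ring
    rw [e2, hw, map_add, map_sub, map_sub, hτ.one, hτ.conj]
    have e6 : (star (τ (z ^ J))).re = (τ (z ^ J)).re := Complex.conj_re _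
    rw [Complex.add_re, Complex.sub_re, Complex.sub_re, e6, Complex.one_re]
    have e7 := (abs_le.1 ((Complex.abs_re_le_norm (τ (z ^ J))).trans hwn)).1
    linarith
  -- the partition of unity
  set x : Fin J → A := fun j => ((J : ℂ) * J)⁻¹ • (star (s j) * s j) with hx
  obtain ⟨D, hD, -, hD2⟩ := hL {z, star z} (by
    rintro w (rfl | rfl)
    · right; rfl
    · left; exact star_star z) (by
    rintro w (rfl | rfl) w' (rfl | rfl)
    · rfl
    · exact hcz.eq
    · exact hcz.eq.symm
    · rfl)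
  have hzD : z ∈ D := hD z (Or.inl rfl)
  have hsD : ∀ j, s j ∈ D := fun j => fs_mem D hzD
  have hxD : ∀ j, x j ∈ D := fun j => D.smul_mem (mul_mem (star_mem (hsD j)) (hsD j)) _
  have hxP : ∀ j, Pos (x j) := by
    intro j
    have e1 : x j = star ((J : ℂ)⁻¹ • s j) * ((J : ℂ)⁻¹ • s j) := by
      rw [star_smul, smul_mul_smul_comm, hx]
      dsimp only
      congr 1
      rw [mul_inv, star_inv₀]
      congr 2
      exact (Complex.conj_natCast J).symm
    rw [e1]
    exact pos_star_mul _
  have hx1 : ∑ j, x j = 1 := by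
    rw [hx]
    dsimp only
    rw [← Finset.smul_sum, ha, smul_smul, inv_mul_cancel₀ (mul_ne_zero hJ0 hJ0), one_smul]
  obtain ⟨p, -, hp, hp2⟩ := hD2 (Fin J) (Option (Fin J)) x
    (fun o => o.elim 1 fun j => star (y j) * y j) hxD hxP hx1
  refine ⟨p, hp, ?_, fun hz j => ?_⟩
  swap
  · have e1 := hp2 j none
    simp only [Option.elim_none, mul_one] at e1
    rw [e1, hx]
    dsimp only
    rw [map_smul, hb hz, smul_eq_mul]
    field_simp
  · have e1 : z - ∑ j : Fin J, ζ ^ (j : ℕ) • p j = ∑ j, y j * p j := by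
      have e2 : z = ∑ j, z * p j := by rw [← Finset.mul_sum, hp.sum, mul_one]
      conv_lhs => rw [e2]
      rw [← Finset.sum_sub_distrib]
      refine Finset.sum_congr rfl fun j _ => ?_
      rw [hy]
      dsimp only
      rw [sub_mul, smul_mul_assoc, one_mul]
    have e3 : (τ (star (∑ j, y j * p j) * ∑ j, y j * p j)).re ≤ 4 / J := by
      rw [star_sum, Finset.sum_mul, map_sum, Complex.re_sum]
      have hJr : (0 : ℝ) < J := by exact_mod_cast hJ
      have e4 : ∀ i ∈ Finset.univ, (τ (star (y i * p i) * ∑ j, y j * p j)).re ≤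
          ((J : ℝ) * J)⁻¹ * 4 := by
        intro i _
        have e8 : τ (star (y i * p i) * ∑ j, y j * p j) =
            (((J : ℝ) * J : ℝ) : ℂ)⁻¹ * τ (star (s i) * s i * (star (y i) * y i)) := by
          rw [Finset.mul_sum, map_sum, Finset.sum_eq_single i]
          · rw [star_mul, hp.star_eq]
            have e5 : p i * star (y i) * (y i * p i) = (p i * (star (y i) * y i)) * p i := by
              noncomm_ring
            rw [e5, hτ.comm, ← mul_assoc, hp.idem]
            have e6 := hp2 i (some i)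
            simp only [Option.elim_some] at e6
            rw [e6, hx]
            dsimp only
            rw [smul_mul_assoc, map_smul, smul_eq_mul]
            push_cast
            rfl
          · intro j _ hji
            rw [star_mul, hp.star_eq]
            have e5 : p i * star (y i) * (y j * p j) = (p i * (star (y i) * y j)) * p j := by
              noncomm_ring
            rw [e5, hτ.comm, ← mul_assoc, hp.orth j i hji, zero_mul, map_zero]
          · intro h; exact absurd (Finset.mem_univ _) h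
        rw [e8, ← Complex.ofReal_inv, Complex.re_ofReal_mul]
        exact mul_le_mul_of_nonneg_left (hc i) (by positivity)
      refine (Finset.sum_le_sum e4).trans (le_of_eq ?_)
      rw [Finset.sum_const, Finset.card_univ, Fintype.card_fin, nsmul_eq_mul]
      field_simp
    rw [e1]
    unfold n2
    have hJr : (0 : ℝ) < J := by exact_mod_cast hJ
    rw [show 2 / Real.sqrt J = Real.sqrt (4 / J) by
      rw [Real.sqrt_div (by norm_num)]; congr 1
      rw [show (4 : ℝ) = 2 ^ 2 by norm_num, Real.sqrt_sq (by norm_num)]]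
    exact Real.sqrt_le_sqrt e3

end FSaux

open FSaux in
theorem p_FS : S_FS := by
  intro A _ τ hτ J hJ z
  have hJ0 : (J : ℂ) ≠ 0 := by exact_mod_cast (by omega : J ≠ 0)
  have hz1 : star (z : A) * (z : A) = 1 := (Unitary.mem_iff.1 z.2).1
  have hz2 : (z : A) * star (z : A) = 1 := (Unitary.mem_iff.1 z.2).2
  have hr : ∀ j : ℕ, rt J j = rt J 1 ^ j := by
    intro j
    unfold rt
    rw [← Complex.exp_nat_mul]
    congr 1
    push_cast
    ring
  have hprim : IsPrimitiveRoot (rt J 1) J := by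
    have h1 := Complex.isPrimitiveRoot_exp J (by omega)
    have h2 : rt J 1 = Complex.exp (2 * Real.pi * Complex.I / (J : ℂ)) := by
      unfold rt
      congr 1
      push_cast
      ring
    rw [h2]; exact h1
  have hn : rt J 1 * star (rt J 1) = 1 := by
    have h1 : rt J 1 * (starRingEnd ℂ) (rt J 1) = ((‖rt J 1‖ ^ 2 : ℝ) : ℂ) := by
      rw [Complex.mul_conj, Complex.normSq_eq_norm_sq]
    have h2 : ‖rt J 1‖ = 1 := Complex.norm_exp_ofReal_mul_I _
    rw [h2, one_pow] at h1
    simpa using h1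
  obtain ⟨p, hp, hp1, hp2⟩ := fs_main hτ.tw hτ.lyap J (by omega) (rt J 1) hprim hn hz1 hz2
  refine ⟨p, hp, ?_, fun hH => hp2 fun l hl => ?_⟩
  · have h1 : ∑ j : Fin J, rt J (j : ℕ) • p j = ∑ j : Fin J, rt J 1 ^ (j : ℕ) • p j :=
      Finset.sum_congr rfl fun j _ => congrArg (fun c : ℂ => c • p j) (hr (j : ℕ))
    rw [h1]
    exact hp1
  · have h1 := hH (l : ℤ) (by exact_mod_cast hl.ne')
    rw [zpow_natCast] at h1
    exact h1

end Pool.Agent.H80R3.SO
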