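import Mathlib
import Pool.Agent.H80R3.SO.Defs

/-!
Orbits, diameter and the cardinality arguments.
-/

set_option autoImplicit false

open scoped ComplexOrder Topology Cardinal
open Filter

noncomputable section

namespace Pool.Agent.H80R3.SO

open Pool.Agent.H467F

section defs

variable {A : Type} [CStarAlgebra A]

/-- `p_N(u, v)`: the length of a shortest chain (`⊤` if there is no chain). -/
def pN (τ : A →ₗ[ℂ] ℂ) (U : Ultrafilter ℕ) (u v : unitary A) : ℕ∞ :=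
  sInf {m : ℕ∞ | ∃ n : ℕ, 1 ≤ n ∧ Chain τ U n u v ∧ m = n}

/-- The sequential commutation diameter: the supremum of `p_N(u, v)` over the Haar unitaries `u, v`
of `N`. -/
def diameter (τ : A →ₗ[ℂ] ℂ) (U : Ultrafilter ℕ) : ℕ∞ :=
  ⨆ (u : unitary A) (v : unitary A) (_ : Haar τ u) (_ : Haar τ v), pN τ U u v

/-- The sequential commutation orbit of `u`. -/
def orbit (τ : A →ₗ[ℂ] ℂ) (U : Ultrafilter ℕ) (u : unitary A) : Set (unitary A) :=
  {v | Haar τ v ∧ ∃ n : ℕ, 1 ≤ n ∧ Chain τ U n u v}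

/-- The set of the sequential commutation orbits of the Haar unitaries. -/
def orbits (τ : A →ₗ[ℂ] ℂ) (U : Ultrafilter ℕ) : Set (Set (unitary A)) :=
  {S | ∃ u : unitary A, Haar τ u ∧ S = orbit τ U u}

/-- `A` is separable in the 2-norm. -/
def Sep (τ : A →ₗ[ℂ] ℂ) : Prop :=
  ∃ d : ℕ → A, ∀ (x : A) (ε : ℝ), 0 < ε → ∃ n, n2 τ (x - d n) < ε

variable {τ : A →ₗ[ℂ] ℂ} {U : Ultrafilter ℕ}

theorem finite_diameter (hD : S_DI) (hCH : S_CH) (h : Fac τ) (hU : ∀ n, {n} ∉ U)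
    (huniq : ∀ u v : unitary A, Haar τ u → Haar τ v → ∃ n : ℕ, 1 ≤ n ∧ Chain τ U n u v) :
    ∃ m : ℕ, 1 ≤ m ∧ (∀ u v : unitary A, Haar τ u → Haar τ v → Chain τ U m u v) ∧
      diameter τ U ≤ m := by
  rcases hD A τ h with ⟨M, hM, hR⟩ | ⟨f, hf, hne⟩
  · have hC : ∀ u v : unitary A, Haar τ u → Haar τ v → Chain τ U M u v := fun u v hu hv =>
      (hCH A τ h.tw U hU M u v).2 (hR u v hu hv)
    refine ⟨M, hM, hC, ?_⟩
    unfold diameter
    refine iSup_le fun u => iSup_le fun v => iSup_le fun hu => iSup_le fun hv => ?_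
    exact sInf_le ⟨M, hM, hC u v hu hv, rfl⟩
  · exfalso
    have h1 : (fun _ : ℕ => true) ≠ (fun _ : ℕ => false) := fun h0 => by
      have := congrFun h0 0
      simp at this
    obtain ⟨n, hn, hc⟩ := huniq _ _ (hf (fun _ => true)) (hf (fun _ => false))
    exact hne _ _ h1 n ((hCH A τ h.tw U hU n _ _).1 hc)

theorem chain_comm (hCH : S_CH) (h1 : S_TR1) (hT : TW τ) (hU : ∀ n, {n} ∉ U) {n : ℕ}
    {u v : unitary A} (hc : Chain τ U n u v) : Chain τ U n v u :=
  (hCH A τ hT U hU n v u).2 (h1 A τ hT n u v ((hCH A τ hT U hU n u v).1 hc))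

theorem chain_trans (hCH : S_CH) (h2 : S_TR2) (hT : TW τ) (hU : ∀ n, {n} ∉ U) {m l : ℕ}
    {u x v : unitary A} (hx : Haar τ x) (hc : Chain τ U m u x) (hc' : Chain τ U l x v) :
    Chain τ U (m + 1 + l) u v :=
  (hCH A τ hT U hU _ u v).2 (h2 A τ hT m l u x v hx ((hCH A τ hT U hU m u x).1 hc)
    ((hCH A τ hT U hU l x v).1 hc'))

theorem orbit_eq (hCH : S_CH) (h1 : S_TR1) (h2 : S_TR2) (hT : TW τ) (hU : ∀ n, {n} ∉ U)
    {u v : unitary A} (hu : Haar τ u) (hv : Haar τ v) (n : ℕ)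
    (hc : Chain τ U n u v) : orbit τ U u = orbit τ U v := by
  ext y
  constructor
  · rintro ⟨hy, l, hl, hly⟩
    exact ⟨hy, n + 1 + l, by omega, chain_trans hCH h2 hT hU hu (chain_comm hCH h1 hT hU hc) hly⟩
  · rintro ⟨hy, l, hl, hly⟩
    exact ⟨hy, n + 1 + l, by omega, chain_trans hCH h2 hT hU hv hc hly⟩

theorem self_mem (hCH : S_CH) (h1 : S_TR1) (h4 : S_TR4) (hT : TW τ) (hU : ∀ n, {n} ∉ U)
    {u : unitary A} (hu : Haar τ u) (n : ℕ) (v : unitary A) (_ : Haar τ v)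
    (_ : Chain τ U n u v) (hR : R τ 0 u u) : u ∈ orbit τ U u :=
  ⟨hu, 1, le_rfl, (hCH A τ hT U hU 1 u u).2 (h4 A τ hT 0 1 u u hu hR (by norm_num))⟩

theorem R_zero (τ : A →ₗ[ℂ] ℂ) (u : unitary A) : R τ 0 u u := by
  intro k
  refine ⟨fun _ => u, rfl, rfl, fun i h1 h0 => absurd h0 (by omega), fun i _ => ?_⟩
  have : ((u : A) * (u : A) - (u : A) * (u : A)) = 0 := sub_self _
  rw [this, n2_zero]
  positivity

theorem mem_orbit (hCH : S_CH) (h4 : S_TR4) (hT : TW τ) (hU : ∀ n, {n} ∉ U)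
    {u : unitary A} (hu : Haar τ u) : u ∈ orbit τ U u :=
  ⟨hu, 1, le_rfl, (hCH A τ hT U hU 1 u u).2 (h4 A τ hT 0 1 u u hu (R_zero τ u) (by norm_num))⟩

theorem card_dichotomy (hD : S_DI) (hCH : S_CH) (h1 : S_TR1) (h2 : S_TR2) (h4 : S_TR4)
    (h : Fac τ) (hU : ∀ n, {n} ∉ U) :
    Cardinal.mk (orbits τ U) ≤ 1 ∨ 𝔠 ≤ Cardinal.mk (orbits τ U) := by
  rcases hD A τ h with ⟨M, hM, hR⟩ | ⟨f, hf, hne⟩
  · left
    rw [Cardinal.le_one_iff_subsingleton]
    constructor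
    rintro ⟨S, u, hu, rfl⟩ ⟨S', v, hv, rfl⟩
    apply Subtype.ext
    exact orbit_eq hCH h1 h2 h.tw hU hu hv M ((hCH A τ h.tw U hU M u v).2 (hR u v hu hv))
  · right
    have hinj : Function.Injective (fun s : ℕ → Bool =>
        (⟨orbit τ U (f s), f s, hf s, rfl⟩ : orbits τ U)) := by
      intro s t hst
      by_contra hcon
      have h3 : orbit τ U (f s) = orbit τ U (f t) := congrArg Subtype.val hst
      have h5 : f t ∈ orbit τ U (f s) := by
        rw [h3]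
        exact mem_orbit hCH h4 h.tw hU (hf t)
      obtain ⟨-, n, -, hc⟩ := h5
      exact hne s t hcon n ((hCH A τ h.tw U hU n _ _).1 hc)
    have h6 := Cardinal.mk_le_of_injective hinj
    have h7 : Cardinal.mk (ℕ → Bool) = 𝔠 := by simp
    rw [← h7]
    exact h6

theorem card_le (h : TW τ) (hS : Sep τ) (U : Ultrafilter ℕ) :
    Cardinal.mk (orbits τ U) ≤ 𝔠 := by
  classical
  obtain ⟨d, hd⟩ := hS
  have h1 : Cardinal.mk (unitary A) ≤ 𝔠 := by
    choose g hg using fun (x : unitary A) (k : ℕ) => hd (x : A) (1 / ((k : ℝ) + 1)) (by positivity)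
    have hinj : Function.Injective g := by
      intro x y hxy
      apply Subtype.ext
      have h0 : n2 τ ((x : A) - y) ≤ 0 := by
        have ht : Tendsto (fun k : ℕ => 2 * (1 / ((k : ℝ) + 1))) atTop (𝓝 (2 * 0)) :=
          tendsto_one_div_add_atTop_nhds_zero_nat.const_mul 2
        rw [mul_zero] at ht
        refine ge_of_tendsto ht (Eventually.of_forall fun k => ?_)
        have e1 := hg x k
        have e2 := hg y k
        rw [← hxy] at e2
        have e3 := h.n2_tri (x : A) (d (g x k)) (y : A)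
        rw [n2_sub_comm τ (d (g x k)) (y : A)] at e3
        linarith
      have h00 : n2 τ ((x : A) - y) = 0 := le_antisymm h0 (n2_nonneg _ _)
      exact sub_eq_zero.1 (h.eq_zero h00)
    have h2 := Cardinal.mk_le_of_injective hinj
    refine h2.trans ?_
    simp
  refine le_trans ?_ h1
  have hsurj : Function.Surjective (fun u : {u : unitary A // Haar τ u} =>
      (⟨orbit τ U u.1, u.1, u.2, rfl⟩ : orbits τ U)) := by
    rintro ⟨S, u, hu, rfl⟩
    exact ⟨⟨u, hu⟩, rfl⟩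
  exact (Cardinal.mk_le_of_surjective hsurj).trans (Cardinal.mk_subtype_le _)

end defs

end Pool.Agent.H80R3.SO
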