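
import Mathlib
import Pool.Agent.H80R3.SO.Defs

set_option autoImplicit false

open scoped ComplexOrder Topology
open Filter

noncomputable section

namespace Pool.Agent.H80R3.SO

open Pool.Agent.H467F

theorem TR_inv (k : ℕ) : (0 : ℝ) ≤ 1 / ((k : ℝ) + 1) := by positivity

theorem p_TR1 : S_TR1 := by
  intro A _ τ h m u v hR k
  obtain ⟨w, h0, h1, htr, hc⟩ := hR k
  refine ⟨fun i => w (m + 1 - i), ?_, ?_, ?_, ?_⟩
  · simpa using h1
  · simpa using h0
  · intro i hi1 hi2 l hl1 hl2
    exact htr (m + 1 - i) (by omega) (by omega) l hl1 hl2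
  · intro i hi
    have e1 : m + 1 - i = (m - i) + 1 := by omega
    have e2 : m + 1 - (i + 1) = m - i := by omega
    simp only [e1, e2]
    rw [n2_sub_comm]
    exact hc (m - i) (by omega)

theorem p_TR2 : S_TR2 := by
  intro A _ τ h m l u x v hx hR hR2 k
  obtain ⟨w, h0, h1, htr, hc⟩ := hR k
  obtain ⟨w2, g0, g1, gtr, gc⟩ := hR2 k
  refine ⟨fun i => if i ≤ m then w i else w2 (i - (m + 1)), ?_, ?_, ?_, ?_⟩
  · simpa using h0
  · have e1 : ¬ (m + 1 + l + 1 ≤ m) := by omega
    have e2 : m + 1 + l + 1 - (m + 1) = l + 1 := by omega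
    simp only [e1, if_false, e2]
    exact g1
  · intro i hi1 hi2 j hj1 hj2
    by_cases hi : i ≤ m
    · simp only [hi, if_true]
      exact htr i hi1 hi j hj1 hj2
    · simp only [hi, if_false]
      by_cases hi' : i = m + 1
      · have e1 : i - (m + 1) = 0 := by omega
        rw [e1, g0]
        have h3 := hx (j : ℤ) (by omega)
        rw [zpow_natCast] at h3
        rw [h3, norm_zero]
        exact TR_inv k
      · exact gtr (i - (m + 1)) (by omega) (by omega) j hj1 hj2
  · intro i hi
    by_cases him : i ≤ m
    · by_cases him' : i + 1 ≤ m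
      · simp only [him, him', if_true]
        exact hc i him
      · have e1 : i + 1 - (m + 1) = 0 := by omega
        have e2 : i + 1 = m + 1 := by omega
        simp only [him, him', if_true, if_false, e1, g0]
        have := hc i him
        rw [e2, h1] at this
        exact this
    · have him' : ¬ (i + 1 ≤ m) := by omega
      have e1 : i + 1 - (m + 1) = (i - (m + 1)) + 1 := by omega
      simp only [him, him', if_false, e1]
      exact gc (i - (m + 1)) (by omega)

theorem TR_tr {A : Type} [CStarAlgebra A] {τ : A →ₗ[ℂ] ℂ} (h : TW τ) (g : unitary A) (y : A) :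
    τ ((g : A) * y * star (g : A)) = τ y := by
  rw [h.comm, ← mul_assoc, Unitary.coe_star_mul_self, one_mul]

theorem TR_n2 {A : Type} [CStarAlgebra A] {τ : A →ₗ[ℂ] ℂ} (h : TW τ) (g : unitary A) (y : A) :
    n2 τ ((g : A) * y * star (g : A)) = n2 τ y := by
  unfold n2
  have e : star ((g : A) * y * star (g : A)) * ((g : A) * y * star (g : A)) =
      (g : A) * (star y * y) * star (g : A) := by
    rw [star_mul, star_mul, star_star]
    calc (g : A) * (star y * star (g : A)) * ((g : A) * y * star (g : A))
        = (g : A) * star y * (star (g : A) * (g : A)) * y * star (g : A) := by noncomm_ring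
      _ = (g : A) * (star y * y) * star (g : A) := by
        rw [Unitary.coe_star_mul_self, mul_one, mul_assoc (g : A) (star y) y]
  rw [e, TR_tr h]

theorem TR_pow {A : Type} [CStarAlgebra A] (g u : unitary A) (l : ℕ) :
    (g * u * star g) ^ l = g * u ^ l * star g := by
  have : star g = g⁻¹ := rfl
  rw [this, conj_pow]

theorem p_TR3 : S_TR3 := by
  intro A _ τ h m g u v hR k
  obtain ⟨w, h0, h1, htr, hc⟩ := hR k
  refine ⟨fun i => g * w i * star g, ?_, ?_, ?_, ?_⟩
  · simp only [h0]
  · simp only [h1]
  · intro i hi1 hi2 l hl1 hl2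
    simp only
    rw [TR_pow]
    have e : ((g * w i ^ l * star g : unitary A) : A) =
      (g : A) * ((w i ^ l : unitary A) : A) * star (g : A) := rfl
    rw [e, TR_tr h]
    exact htr i hi1 hi2 l hl1 hl2
  · intro i hi
    have key : ∀ a b : unitary A, ((g * a * star g : unitary A) : A) * ((g * b * star g : unitary A) : A)
        = (g : A) * ((a : A) * (b : A)) * star (g : A) := by
      intro a b
      have e : ((g * a * star g) * (g * b * star g) : unitary A) = g * (a * b) * star g := by
        have : star g = g⁻¹ := rfl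
        rw [this]
        group
      have e2 := congrArg (fun z : unitary A => (z : A)) e
      exact e2
    simp only
    rw [key, key]
    have e3 : (g : A) * ((w i : A) * (w (i + 1) : A)) * star (g : A) -
        (g : A) * ((w (i + 1) : A) * (w i : A)) * star (g : A) =
        (g : A) * ((w i : A) * (w (i + 1) : A) - (w (i + 1) : A) * (w i : A)) * star (g : A) := by
      rw [mul_sub, sub_mul]
    rw [e3, TR_n2 h]
    exact hc i hi

theorem p_TR4 : S_TR4 := by
  intro A _ τ h m l u v hu hR hml
  induction l, hml using Nat.le_induction with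
  | base => exact hR
  | succ n hn ih =>
    have h0 : R τ 0 u u := by
      intro k
      refine ⟨fun _ => u, rfl, rfl, fun i hi1 hi2 => by omega, fun i hi => ?_⟩
      simp only [sub_self]
      rw [n2_zero]
      exact TR_inv k
    have h1 := p_TR2 A τ h 0 n u u v hu h0 ih
    have e : 0 + 1 + n = n + 1 := by omega
    rw [e] at h1
    exact h1

end Pool.Agent.H80R3.SO
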